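import Mathlib
import Pool.Agent.W2helper2.RG.Stm1

/-!
# Project RG, piece AV: averaging
-/

set_option autoImplicit false

namespace Pool.Agent.W2helper71.RG

open Pool.Agent.W2helper2.RG
open Pool.Agent.TH841.SH.D (Gal)
open scoped Classical

section ac

variable {J : Type} [Fintype J]

lemma ac_add (A : Matrix J J ℤ_[3]) (u v : J → ℚ_[3]) : ac A (u + v) = ac A u + ac A v := by
  funext α
  simp only [ac, Pi.add_apply, mul_add, Finset.sum_add_distrib]

lemma ac_sub (A : Matrix J J ℤ_[3]) (u v : J → ℚ_[3]) : ac A (u - v) = ac A u - ac A v := by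
  funext α
  simp only [ac, Pi.sub_apply, mul_sub, Finset.sum_sub_distrib]

lemma ac_smul (A : Matrix J J ℤ_[3]) (r : ℚ_[3]) (v : J → ℚ_[3]) : ac A (r • v) = r • ac A v := by
  funext α
  simp only [ac, Pi.smul_apply, smul_eq_mul, Finset.mul_sum]
  exact Finset.sum_congr rfl fun β _ => by ring

lemma ac_zero (A : Matrix J J ℤ_[3]) : ac A (0 : J → ℚ_[3]) = 0 := by
  funext α
  simp only [ac, Pi.zero_apply, mul_zero, Finset.sum_const_zero]

lemma ac_sum (A : Matrix J J ℤ_[3]) {R : Type} (s : Finset R) (v : R → J → ℚ_[3]) :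
    ac A (∑ θ ∈ s, v θ) = ∑ θ ∈ s, ac A (v θ) := by
  induction s using Finset.induction_on with
  | empty => simp [ac_zero]
  | insert a s ha ih => rw [Finset.sum_insert ha, Finset.sum_insert ha, ac_add, ih]

lemma ac_mul (A B : Matrix J J ℤ_[3]) (v : J → ℚ_[3]) : ac (A * B) v = ac A (ac B v) := by
  funext α
  simp only [ac, Matrix.mul_apply, Finset.mul_sum]
  rw [Finset.sum_comm]
  refine Finset.sum_congr rfl fun β _ => ?_
  have h : ((∑ j, A α j * B j β : ℤ_[3]) : ℚ_[3]) = ∑ j, ((A α j : ℚ_[3]) * (B j β : ℚ_[3])) := by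
    rw [PadicInt.coe_sum]
    exact Finset.sum_congr rfl fun γ _ => PadicInt.coe_mul _ _
  rw [h, Finset.sum_mul]
  exact Finset.sum_congr rfl fun γ _ => by ring

end ac

/-- averaging, abstract form: `X` is a finite set with an action of `G`, given by `m` -/
theorem average {G J X : Type} [Group G] [Fintype J] [DecidableEq J] [TopologicalSpace G] [Finite X]
    (m : G → X → X) (hm : ∀ σ τ x, m (σ * τ) x = m σ (m τ x)) (hm1 : ∀ x, m 1 x = x) (x₀ : X)
    (ρ : G →* Matrix J J ℤ_[3]) (c : G → J → ℚ_[3]) (hc : Coc ρ c)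
    (h : Cob ρ {σ | m σ x₀ = x₀} c) : Cob ρ Set.univ c := by
  obtain ⟨y, hy⟩ := h
  set T : G → (J → ℚ_[3]) → J → ℚ_[3] := fun σ u => ac (ρ σ) u - c σ with hT
  have hTmul : ∀ σ τ u, T (σ * τ) u = T σ (T τ u) := by
    intro σ τ u
    simp only [hT]
    rw [hc.mul, map_mul, ac_mul, ac_sub]
    abel
  have hTy : ∀ σ, m σ x₀ = x₀ → T σ y = y := by
    intro σ hσ
    simp only [hT]
    rw [hy σ hσ]
    abel
  -- the values
  let R : Type := {x : X // ∃ σ, m σ x₀ = x}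
  have hR : Finite R := Subtype.finite
  let _ : Fintype R := Fintype.ofFinite R
  let s : R → G := fun x => x.2.choose
  have hs : ∀ x : R, m (s x) x₀ = x.1 := fun x => x.2.choose_spec
  have hinv : ∀ σ x, m σ⁻¹ (m σ x) = x := fun σ x => by rw [← hm, inv_mul_cancel, hm1]
  have hinv' : ∀ σ x, m σ (m σ⁻¹ x) = x := fun σ x => by rw [← hm, mul_inv_cancel, hm1]
  let Y : R → J → ℚ_[3] := fun x => T (s x) y
  have hY : ∀ σ (x : R), m σ x₀ = x.1 → T σ y = Y x := by
    intro σ x hσ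
    show T σ y = T (s x) y
    have h1 : σ = s x * ((s x)⁻¹ * σ) := by group
    rw [h1, hTmul, hTy]
    rw [hm, hσ, ← hs x, hinv]
  let E : G → R ≃ R := fun τ =>
    { toFun := fun x => ⟨m τ x.1, τ * s x, by rw [hm, hs]⟩
      invFun := fun x => ⟨m τ⁻¹ x.1, τ⁻¹ * s x, by rw [hm, hs]⟩
      left_inv := fun x => Subtype.ext (hinv τ x.1)
      right_inv := fun x => Subtype.ext (hinv' τ x.1) }
  have hE : ∀ τ x, T τ (Y x) = Y (E τ x) := by
    intro τ x
    show T τ (T (s x) y) = _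
    rw [← hTmul]
    apply hY
    rw [hm, hs]
    rfl
  have hne : Nonempty R := ⟨⟨x₀, 1, hm1 x₀⟩⟩
  have hcard : ((Fintype.card R : ℕ) : ℚ_[3]) ≠ 0 := by
    exact_mod_cast Fintype.card_ne_zero
  refine ⟨((Fintype.card R : ℕ) : ℚ_[3])⁻¹ • ∑ x, Y x, fun τ _ => ?_⟩
  have h1 : T τ (((Fintype.card R : ℕ) : ℚ_[3])⁻¹ • ∑ x, Y x) =
      ((Fintype.card R : ℕ) : ℚ_[3])⁻¹ • ∑ x, Y x := by
    have h2 : ∑ x, T τ (Y x) = ∑ x, Y x := by
      simp only [hE]
      exact Equiv.sum_comp (E τ) Y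
    have h3 : ∑ x, T τ (Y x) = ac (ρ τ) (∑ x, Y x) - ((Fintype.card R : ℕ) : ℚ_[3]) • c τ := by
      simp only [hT]
      rw [Finset.sum_sub_distrib, ac_sum, Finset.sum_const, Finset.card_univ]
      congr 1
    rw [h2] at h3
    conv_rhs => rw [h3]
    simp only [hT]
    rw [ac_smul, smul_sub, smul_smul, inv_mul_cancel₀ hcard, one_smul]
  have h4 : c τ = ac (ρ τ) (((Fintype.card R : ℕ) : ℚ_[3])⁻¹ • ∑ x, Y x) -
      T τ (((Fintype.card R : ℕ) : ℚ_[3])⁻¹ • ∑ x, Y x) := by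
    simp only [hT]
    abel
  rw [h1] at h4
  exact h4

/-- **AV** -/
theorem av : P_AV := by
  intro k F J _ _ _ _ _ _ _ φ ρ c hc h
  have hfin : FiniteDimensional k F := FiniteDimensional.right ℚ k F
  set ψ : F →ₐ[k] AlgebraicClosure k :=
    (φ.symm.toAlgHom).comp (IsScalarTower.toAlgHom k F (AlgebraicClosure F)) with hψ
  have hψx : ∀ x, ψ x = φ.symm (algebraMap F _ x) := fun x => rfl
  refine average (G := Gal k) (X := F →ₐ[k] AlgebraicClosure k) (fun σ θ => σ.toAlgHom.comp θ)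
    (fun σ τ θ => rfl) (fun θ => AlgHom.ext fun x => rfl) ψ ρ c hc ?_
  obtain ⟨y, hy⟩ := h
  refine ⟨y, fun σ hσ => hy σ fun x => ?_⟩
  have h1 := DFunLike.congr_fun (show (σ : Gal k).toAlgHom.comp ψ = ψ from hσ) x
  exact h1

end Pool.Agent.W2helper71.RG
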