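import Mathlib
import Pool.Agent.W2helper2.RG.Stm1

/-!
# Project RG, piece T1: the representation on the Tate module (port of `Pool.Agent.R384.Mat`)
-/

set_option autoImplicit false
set_option linter.unusedSectionVars false

namespace Pool.Agent.W2helper71.RG

open Pool.Agent.W2helper2.RG

/-! ### `3`-adic integers -/

lemma norm3 : ‖(3 : ℤ_[3])‖ = 1 / 3 := by
  have := PadicInt.norm_p (p := 3)
  simpa using this

lemma dvd_cast {n : ℕ} {k : ℤ} : (3 : ℤ_[3]) ^ n ∣ (k : ℤ_[3]) ↔ (3 ^ n : ℤ) ∣ k := by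
  rw [← Ideal.mem_span_singleton]
  have h1 := PadicInt.norm_le_pow_iff_mem_span_pow (p := 3) (k : ℤ_[3]) n
  have h2 : (((3 : ℕ) : ℤ_[3])) = 3 := by norm_num
  rw [h2] at h1
  rw [← h1, PadicInt.norm_int_le_pow_iff_dvd]
  norm_num

lemma exists_int (z : ℤ_[3]) (n : ℕ) : ∃ k : ℤ, (3 : ℤ_[3]) ^ n ∣ z - k := by
  refine ⟨(z.appr n : ℕ), ?_⟩
  have h := PadicInt.appr_spec n z
  rw [Ideal.mem_span_singleton] at h
  have h2 : (((3 : ℕ) : ℤ_[3])) = 3 := by norm_num
  rw [h2] at h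
  exact_mod_cast h

lemma exists_lim (k : ℕ → ℤ) (hk : ∀ n, (3 ^ n : ℤ) ∣ k (n + 1) - k n) :
    ∃ z : ℤ_[3], ∀ n, (3 : ℤ_[3]) ^ n ∣ z - k n := by
  have hmono : ∀ n j, (3 ^ n : ℤ) ∣ k (n + j) - k n := by
    intro n j
    induction j with
    | zero => simp
    | succ j ih =>
      have h1 : (3 ^ n : ℤ) ∣ k (n + j + 1) - k (n + j) :=
        (pow_dvd_pow 3 (Nat.le_add_right n j)).trans (hk (n + j))
      have h2 := dvd_add h1 ih
      rwa [sub_add_sub_cancel] at h2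
  have hnorm : ∀ n j, ‖(k (n + j) : ℤ_[3]) - k n‖ ≤ (3 : ℝ) ^ (-(n : ℤ)) := by
    intro n j
    rw [← Int.cast_sub]
    have h1 : (((3 : ℕ) : ℤ) ^ n ∣ k (n + j) - k n) := by exact_mod_cast hmono n j
    have := PadicInt.norm_int_le_pow_iff_dvd.2 h1
    simpa using this
  have hc : CauchySeq (fun n => (k n : ℤ_[3])) := by
    apply cauchySeq_of_le_geometric (1 / 3) 1 (by norm_num)
    intro n
    rw [dist_comm, dist_eq_norm]
    have h1 := hnorm n 1
    rw [one_mul, one_div, inv_pow, ← zpow_natCast, ← zpow_neg]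
    exact h1
  obtain ⟨z, hz⟩ := cauchySeq_tendsto_of_complete hc
  refine ⟨z, fun n => ?_⟩
  have h2 : ‖z - k n‖ ≤ (3 : ℝ) ^ (-(n : ℤ)) := by
    have h3 : Filter.Tendsto (fun j => ‖(k (n + j) : ℤ_[3]) - k n‖) Filter.atTop
        (nhds ‖z - k n‖) := by
      apply Filter.Tendsto.norm
      apply Filter.Tendsto.sub_const
      have h4 := (Filter.tendsto_add_atTop_iff_nat (f := fun n => (k n : ℤ_[3])) n).2 hz
      refine h4.congr fun j => ?_
      rw [add_comm]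
    exact le_of_tendsto' h3 (hnorm n)
  have h5 := (PadicInt.norm_le_pow_iff_mem_span_pow (p := 3) (z - k n) n).1 (by simpa using h2)
  rw [Ideal.mem_span_singleton] at h5
  have h6 : (((3 : ℕ) : ℤ_[3])) = 3 := by norm_num
  rwa [h6] at h5

lemma eq_of_dvd {z z' : ℤ_[3]} (h : ∀ n, (3 : ℤ_[3]) ^ n ∣ z - z') : z = z' := by
  by_contra hne
  have h0 : z - z' ≠ 0 := sub_ne_zero.2 hne
  have h1 : ∀ n : ℕ, ‖z - z'‖ ≤ (1 / 3 : ℝ) ^ n := by
    intro n
    obtain ⟨c, hc⟩ := h n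
    rw [hc, norm_mul, norm_pow, norm3]
    calc (1 / 3 : ℝ) ^ n * ‖c‖ ≤ (1 / 3 : ℝ) ^ n * 1 :=
          mul_le_mul_of_nonneg_left (PadicInt.norm_le_one c) (by positivity)
      _ = _ := mul_one _
  have h2 : ‖z - z'‖ ≤ 0 := by
    have h3 : Filter.Tendsto (fun n : ℕ => (1 / 3 : ℝ) ^ n) Filter.atTop (nhds 0) :=
      tendsto_pow_atTop_nhds_zero_of_lt_one (by norm_num) (by norm_num)
    exact ge_of_tendsto' h3 h1
  exact h0 (norm_le_zero_iff.1 h2)

/-! ### bases -/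

section bs

variable {A : Type} [AddCommGroup A] {P Q : A}

/-- a sequence with `3 x (n + 1) = x n`, `x 0 = 0`, `x 1 = P` -/
theorem exists_seq (hdiv : ∀ T : A, ∃ S : A, (3 : ℤ) • S = T) (hP : (3 : ℤ) • P = 0) :
    ∃ x : ℕ → A, x 0 = 0 ∧ x 1 = P ∧ ∀ n, (3 : ℤ) • x (n + 1) = x n := by
  choose d hd using hdiv
  refine ⟨fun n => Nat.casesOn n 0 fun m => d^[m] P, rfl, rfl, fun n => ?_⟩
  cases n with
  | zero => exact hP
  | succ n =>
    show (3 : ℤ) • (d^[n + 1] P) = d^[n] P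
    rw [Function.iterate_succ_apply', hd]

theorem seq_pow {x : ℕ → A} (h1 : x 1 = P) (h : ∀ n, (3 : ℤ) • x (n + 1) = x n) (n : ℕ) :
    (3 ^ n : ℤ) • x (n + 1) = P := by
  induction n with
  | zero => rw [pow_zero, one_smul, h1]
  | succ n ih => rw [pow_succ, mul_smul, h, ih]

theorem bs_of {x y : ℕ → A} (hx0 : x 0 = 0) (hx1 : x 1 = P) (hx : ∀ n, (3 : ℤ) • x (n + 1) = x n)
    (hy0 : y 0 = 0) (hy1 : y 1 = Q) (hy : ∀ n, (3 : ℤ) • y (n + 1) = y n)
    (hs : ∀ T : A, (3 : ℤ) • T = 0 → ∃ x y : ℤ, T = x • P + y • Q)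
    (hi : ∀ x y : ℤ, x • P + y • Q = 0 → (3 : ℤ) ∣ x ∧ (3 : ℤ) ∣ y) : Bs ![x, y] where
  zero i := by fin_cases i; exacts [hx0, hy0]
  trp i n := by fin_cases i; exacts [hx n, hy n]
  span n := by
    induction n with
    | zero =>
      intro T hT
      rw [pow_zero, one_smul] at hT
      exact ⟨0, by rw [hT]; simp⟩
    | succ n ih =>
      intro T hT
      obtain ⟨r, s, hrs⟩ := hs ((3 ^ n : ℤ) • T) (by rw [smul_smul, ← pow_succ', hT])
      obtain ⟨k, hk⟩ := ih (T - r • x (n + 1) - s • y (n + 1)) (by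
        rw [smul_sub, smul_sub, hrs, smul_comm, seq_pow hx1 hx, smul_comm _ s, seq_pow hy1 hy]
        abel)
      refine ⟨![r + 3 * k 0, s + 3 * k 1], ?_⟩
      rw [Fin.sum_univ_two] at hk ⊢
      simp only [Matrix.cons_val_zero, Matrix.cons_val_one] at hk ⊢
      rw [add_smul, add_smul, mul_comm 3 (k 0), mul_comm 3 (k 1), mul_smul, mul_smul, hx, hy]
      have h1 : T = (T - r • x (n + 1) - s • y (n + 1)) + r • x (n + 1) + s • y (n + 1) := by abel
      rw [h1, hk]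
      abel
  indep n := by
    induction n with
    | zero => intro k _ i; simp
    | succ n ih =>
      intro k hk
      have h1 : k 0 • P + k 1 • Q = 0 := by
        have h2 := congrArg (fun z => (3 ^ n : ℤ) • z) hk
        simp only [Fin.sum_univ_two, Matrix.cons_val_zero, Matrix.cons_val_one, smul_add,
          smul_zero] at h2
        rwa [smul_comm, seq_pow hx1 hx, smul_comm _ (k 1), seq_pow hy1 hy] at h2
      obtain ⟨⟨l0, hl0⟩, ⟨l1, hl1⟩⟩ := hi _ _ h1
      have h3 := ih ![l0, l1] (by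
        rw [Fin.sum_univ_two] at hk ⊢
        simp only [Matrix.cons_val_zero, Matrix.cons_val_one] at hk ⊢
        rw [hl0, hl1, mul_comm 3 l0, mul_comm 3 l1, mul_smul, mul_smul, hx, hy] at hk
        exact hk)
      intro i
      fin_cases i
      · obtain ⟨c, hc⟩ := h3 0
        simp only [Matrix.cons_val_zero] at hc
        refine ⟨c, ?_⟩
        show k 0 = _
        rw [hl0, hc]; ring
      · obtain ⟨c, hc⟩ := h3 1
        have hc' : l1 = 3 ^ n * c := hc
        refine ⟨c, ?_⟩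
        show k 1 = _
        rw [hl1, hc']; ring

end bs

variable {A : Type} [AddCommGroup A] {e : Fin 2 → ℕ → A}

variable (hb : Bs e)

include hb

lemma bs_pow (i : Fin 2) (n : ℕ) : (3 ^ n : ℤ) • e i n = 0 := by
  induction n with
  | zero => rw [hb.zero, smul_zero]
  | succ n ih => rw [pow_succ, mul_smul, hb.trp, ih]

lemma bs_smul_congr {i : Fin 2} {n : ℕ} {k l : ℤ} (h : (3 ^ n : ℤ) ∣ k - l) :
    k • e i n = l • e i n := by
  obtain ⟨c, hc⟩ := h
  have h1 : k = l + c * 3 ^ n := by linarith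
  rw [h1, add_smul, mul_smul, bs_pow hb, smul_zero, add_zero]

omit hb in
lemma dvd_int {z : ℤ_[3]} {n : ℕ} {k l : ℤ} (hk : (3 : ℤ_[3]) ^ n ∣ z - k)
    (hl : (3 : ℤ_[3]) ^ n ∣ z - l) : (3 ^ n : ℤ) ∣ k - l := by
  apply dvd_cast.1
  have h2 := dvd_sub hl hk
  rw [sub_sub_sub_cancel_left] at h2
  push_cast
  exact h2

lemma acts_of {f : A →+ A} {M : Matrix (Fin 2) (Fin 2) ℤ_[3]}
    (h : ∀ n, ∃ k : Fin 2 → Fin 2 → ℤ, (∀ i j, (3 : ℤ_[3]) ^ n ∣ M i j - k i j) ∧
      ∀ j, f (e j n) = ∑ i, k i j • e i n) : Acts e f M := by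
  intro n l hl j
  obtain ⟨k, hk, hf⟩ := h n
  rw [hf j]
  refine Finset.sum_congr rfl fun i _ => ?_
  exact bs_smul_congr hb (dvd_int (hk i j) (hl i j))

lemma exists_acts (f : A →+ A) : ∃ M, Acts e f M := by
  have h1 : ∀ n j, ∃ k : Fin 2 → ℤ, f (e j n) = ∑ i, k i • e i n := by
    intro n j
    apply hb.span
    rw [← map_zsmul, bs_pow hb, map_zero]
  choose k hk using h1
  have h2 : ∀ i j n, (3 ^ n : ℤ) ∣ k (n + 1) j i - k n j i := by
    intro i j n
    have h3 : ∑ i, (k (n + 1) j i - k n j i) • e i n = 0 := by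
      have h4 : f (e j n) = ∑ i, k (n + 1) j i • e i n := by
        rw [← hb.trp, map_zsmul, hk, Finset.smul_sum]
        refine Finset.sum_congr rfl fun i _ => ?_
        rw [smul_comm, hb.trp]
      simp only [sub_smul]
      rw [Finset.sum_sub_distrib, ← h4, ← hk, sub_self]
    exact hb.indep n _ h3 i
  choose z hz using fun i j => exists_lim (fun n => k n j i) (h2 i j)
  refine ⟨Matrix.of z, acts_of hb fun n => ⟨fun i j => k n j i, fun i j => hz i j n, fun j => hk n j⟩⟩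

lemma acts_unique {f : A →+ A} {M M' : Matrix (Fin 2) (Fin 2) ℤ_[3]} (h : Acts e f M)
    (h' : Acts e f M') : M = M' := by
  ext1 i j
  apply eq_of_dvd
  intro n
  choose k hk using fun i j => exists_int (M i j) n
  choose k' hk' using fun i j => exists_int (M' i j) n
  have h1 : ∑ i, (k i j - k' i j) • e i n = 0 := by
    simp only [sub_smul]
    rw [Finset.sum_sub_distrib, ← h n k hk j, ← h' n k' hk' j, sub_self]
  have h2 := dvd_cast.2 (hb.indep n _ h1 i)
  push_cast at h2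
  have h3 := dvd_sub (dvd_add (hk i j) h2) (hk' i j)
  have e : M i j - (k i j : ℤ_[3]) + ((k i j : ℤ_[3]) - k' i j) - (M' i j - k' i j) =
      M i j - M' i j := by ring
  rwa [e] at h3

lemma acts_mul {f g h : A →+ A} (hfg : ∀ P, h P = f (g P)) {M N : Matrix (Fin 2) (Fin 2) ℤ_[3]}
    (hM : Acts e f M) (hN : Acts e g N) : Acts e h (M * N) := by
  apply acts_of hb
  intro n
  choose k hk using fun i j => exists_int (M i j) n
  choose l hl using fun i j => exists_int (N i j) n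
  refine ⟨fun i j => ∑ s, k i s * l s j, fun i j => ?_, fun j => ?_⟩
  · rw [Matrix.mul_apply]
    push_cast
    rw [← Finset.sum_sub_distrib]
    refine Finset.dvd_sum fun s _ => ?_
    have e : M i s * N s j - k i s * l s j = (M i s - k i s) * N s j + k i s * (N s j - l s j) := by
      ring
    rw [e]
    exact dvd_add ((hk i s).mul_right _) ((hl s j).mul_left _)
  · rw [hfg, hN n l hl j, map_sum]
    simp only [map_zsmul, hM n k hk, Finset.smul_sum, Finset.sum_smul]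
    rw [Finset.sum_comm]
    refine Finset.sum_congr rfl fun i _ => Finset.sum_congr rfl fun s _ => ?_
    rw [smul_smul, mul_comm]

lemma acts_one {f : A →+ A} (h : ∀ T, f T = T) :
    Acts e f (1 : Matrix (Fin 2) (Fin 2) ℤ_[3]) := by
  apply acts_of hb
  intro n
  refine ⟨fun i j => if i = j then 1 else 0, fun i j => ?_, fun j => ?_⟩
  · rw [Matrix.one_apply]
    by_cases hij : i = j <;> simp [hij]
  · rw [h]
    simp

omit hb

/-- representations -/
theorem exists_rep (hb : Bs e) {G : Type} [Group G] (a : G → A →+ A) (h1 : ∀ P, a 1 P = P)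
    (hmul : ∀ σ τ P, a (σ * τ) P = a σ (a τ P)) :
    ∃ ρ : G →* Matrix (Fin 2) (Fin 2) ℤ_[3], ∀ σ, Acts e (a σ) (ρ σ) := by
  choose z hz using fun σ => exists_acts hb (a σ)
  have hz1 : z 1 = 1 := acts_unique hb (hz 1) (acts_one hb h1)
  have hzm : ∀ σ τ, z (σ * τ) = z σ * z τ := fun σ τ =>
    acts_unique hb (hz (σ * τ)) (acts_mul hb (hmul σ τ) (hz σ) (hz τ))
  exact ⟨{ toFun := z, map_one' := hz1, map_mul' := hzm }, hz⟩

/-- continuity -/
theorem rep_cont (hb : Bs e) {G : Type} [Group G] [TopologicalSpace G] {a : G → A →+ A}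
    (hl : ∀ P, IsLocallyConstant fun σ => a σ P) {ρ : G → Matrix (Fin 2) (Fin 2) ℤ_[3]}
    (hρ : ∀ σ, Acts e (a σ) (ρ σ)) (i j : Fin 2) : Continuous fun σ => ρ σ i j := by
  rw [Metric.continuous_iff']
  intro σ ε hε
  obtain ⟨n, hn⟩ := exists_pow_lt_of_lt_one hε (by norm_num : (1 / 3 : ℝ) < 1)
  obtain ⟨U, hU, hσ, hc⟩ := (IsLocallyConstant.iff_exists_open _).1 (hl (e j n)) σ
  filter_upwards [hU.mem_nhds hσ] with τ hτ
  have h1 := hc τ hτ
  choose k hk using fun i j => exists_int (ρ τ i j) n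
  choose l hl using fun i j => exists_int (ρ σ i j) n
  rw [hρ τ n k hk, hρ σ n l hl] at h1
  have h2 : ∑ i, (k i j - l i j) • e i n = 0 := by
    simp only [sub_smul]
    rw [Finset.sum_sub_distrib, h1, sub_self]
  have h3 := dvd_cast.2 (hb.indep n _ h2 i)
  have h4 : (3 : ℤ_[3]) ^ n ∣ ρ τ i j - ρ σ i j := by
    have e : ρ τ i j - ρ σ i j = (ρ τ i j - k i j) + ((k i j - l i j : ℤ) : ℤ_[3]) -
        (ρ σ i j - l i j) := by
      push_cast
      ring
    rw [e]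
    exact dvd_sub (dvd_add (hk i j) h3) (hl i j)
  rw [dist_eq_norm]
  obtain ⟨c, hc⟩ := h4
  rw [hc, norm_mul, norm_pow, norm3]
  calc (1 / 3 : ℝ) ^ n * ‖c‖ ≤ (1 / 3 : ℝ) ^ n * 1 :=
        mul_le_mul_of_nonneg_left (PadicInt.norm_le_one c) (by positivity)
    _ < ε := by rwa [mul_one]

/-- **T1** -/
theorem t1 : P_T1 := by
  intro A G _ _ _ a P Q h1 hmul hl hdiv hP hQ hs hi
  obtain ⟨x, hx0, hx1, hx⟩ := exists_seq hdiv hP
  obtain ⟨y, hy0, hy1, hy⟩ := exists_seq hdiv hQ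
  have hb : Bs ![x, y] := bs_of hx0 hx1 hx hy0 hy1 hy hs hi
  obtain ⟨ρ, hρ⟩ := exists_rep hb a h1 hmul
  refine ⟨![x, y], ρ, hb, hρ, hx1, hy1, rep_cont hb hl hρ, ?_⟩
  intro σ s t u hsP htQ
  choose k hk using fun i j => exists_int (ρ σ i j) 1
  have e0 := hρ σ 1 k hk 0
  have e1 := hρ σ 1 k hk 1
  rw [Fin.sum_univ_two] at e0 e1
  simp only [Matrix.cons_val_zero, Matrix.cons_val_one] at e0 e1
  rw [hx1, hy1] at e0 e1
  rw [hsP] at e0
  rw [htQ] at e1
  obtain ⟨d1, d2⟩ := hi (k 0 0 - s) (k 1 0) (by rw [sub_smul, e0]; abel)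
  obtain ⟨d3, d4⟩ := hi (k 0 1 - u) (k 1 1 - t) (by
    rw [sub_smul, sub_smul]
    have : k 0 1 • P - u • P + (k 1 1 • Q - t • Q) = (k 0 1 • P + k 1 1 • Q) - (t • Q + u • P) := by
      abel
    rw [this, ← e1, sub_self])
  simp only [pow_one] at hk
  have c : ∀ {m : ℤ}, (3 : ℤ) ∣ m → (3 : ℤ_[3]) ∣ (m : ℤ_[3]) := by
    rintro m ⟨q, rfl⟩
    exact ⟨q, by push_cast; ring⟩
  refine ⟨?_, ?_, ?_⟩
  · have h3 := dvd_add (hk 0 0) (c d1)
    push_cast at h3
    rwa [sub_add_sub_cancel] at h3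
  · have h3 := dvd_add (hk 1 0) (c d2)
    rwa [sub_add_cancel] at h3
  · have h3 := dvd_add (hk 1 1) (c d4)
    push_cast at h3
    rwa [sub_add_sub_cancel] at h3

end Pool.Agent.W2helper71.RG
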